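import Pool.Agent.Q229.MJ.Alg
import Pool.Agent.Q229.MJ.Crit

/-!
# Majority domination of complete multipartite graphs is decidable in polynomial time

A majority dominating function of weight two always exists, and one of weight one if the order is
odd.  In the remaining case only the number of positive vertices in each part matters, and an
exchange argument gives a criterion in terms of a partition of the set of parts into three classes
`T`, `M`, `R` with two linear inequalities.  If the largest part has at least `3 m` vertices, where
`m` is the number of parts, and at least six vertices lie outside of the two largest parts, then a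
greedy choice shows that the answer is always yes.  Otherwise there are at most seven parts, or all
parts have less than `3 m` vertices, and a dynamic programme which collects all reachable values of
the four sums runs in polynomial time.
-/

set_option autoImplicit false

namespace Pool.Agent.Results.MP_1ffe94_lc.MajCmpInP

open Pool.Agent.NPC Q229.MJ

/-- **MAJ-CMP, with the part sizes and `k` written in binary, is in `P`**; so it is `NP`-hard only
if `NP ⊆ P`.  Moreover the complete multipartite graph with parts of the sizes `ns` has a majority
dominating function of weight at most `k` if and only if `k ≥ 2`, or the order is odd, or the set of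
parts has a partition into `T`, `R` and the rest `M` such that the parts in `T` have at least two
vertices and the sums of `2 + (nᵢ mod 2)` over `T`, of `nᵢ mod 2` over `M` together are at most the
sum of `nᵢ` over `R`, and the latter plus the sum of `nᵢ mod 2` over `M` is at most the sum of `nᵢ`
over `T`. -/
theorem result :
    InPP MajCMP ∧
    (NPHardP MajCMP → ∀ L : Set (List Bool), InNP L → InP L) ∧
    ∀ (ns : List ℕ) (k : ℕ), ns ≠ [] → (∀ n ∈ ns, 0 < n) → 0 < k →
      ((∃ f : PV ns → ℤ, MDF (K ns) f ∧ ∑ v, f v ≤ (k : ℤ)) ↔
        2 ≤ k ∨ ns.sum % 2 = 1 ∨ ∃ T R : Finset (Fin ns.length), Disjoint T R ∧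
          (∀ i ∈ T, 2 ≤ ns.get i) ∧
          ∑ i ∈ T, (2 + ns.get i % 2) + ∑ i ∈ (T ∪ R)ᶜ, ns.get i % 2 ≤ ∑ i ∈ R, ns.get i ∧
          ∑ i ∈ R, ns.get i + ∑ i ∈ (T ∪ R)ᶜ, ns.get i % 2 ≤ ∑ i ∈ T, ns.get i) :=
  ⟨majCMP_inP, fun h => NPHard.collapse h majCMP_inP, exists_MDF_crit⟩

end Pool.Agent.Results.MP_1ffe94_lc.MajCmpInP
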